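import Mathlib
import Pool.Agent.N546.PN.Stm3

/-!
# Project PW (helper546), SQW: numbers near `a` are `a` times squares of numbers near `1`

Written by helper126.
-/

set_option autoImplicit false

namespace Pool.Agent.N126.PW

open Pool.Agent.N546.PN Filter Topology

theorem sqw_gen (K : Type) [NontriviallyNormedField K] [CompleteSpace K] (h2 : (2 : K) ≠ 0) :
    S_SQW K := by
  intro a ha ε hε
  have hf : HasStrictDerivAt (fun s : K => s ^ 2) (2 : K) 1 := by
    have := hasStrictDerivAt_pow 2 (1 : K)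
    simpa using this
  have hmap := hf.map_nhds_eq h2
  have hS : {s : K | ‖s - 1‖ < ε ∧ s ≠ 0} ∈ 𝓝 (1 : K) := by
    refine Filter.inter_mem ?_ ?_
    · have := Metric.ball_mem_nhds (1 : K) hε
      refine Filter.mem_of_superset this fun s hs => ?_
      rw [Metric.mem_ball, dist_eq_norm] at hs
      exact hs
    · exact IsOpen.mem_nhds isOpen_ne one_ne_zero
  have him := Filter.image_mem_map (m := fun s : K => s ^ 2) hS
  rw [hmap] at him
  simp only [one_pow] at him
  obtain ⟨δ, hδ, hball⟩ := Metric.mem_nhds_iff.1 him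
  refine ⟨δ * ‖a‖, mul_pos hδ (norm_pos_iff.2 ha), fun a' ha' => ?_⟩
  have h1 : a' / a ∈ Metric.ball (1 : K) δ := by
    rw [Metric.mem_ball, dist_eq_norm]
    have : a' / a - 1 = (a' - a) / a := by field_simp
    rw [this, norm_div, div_lt_iff₀ (norm_pos_iff.2 ha)]
    exact ha'
  obtain ⟨s, ⟨hs1, hs0⟩, hs⟩ := hball h1
  refine ⟨s, hs1, hs0, ?_⟩
  have hs' : s ^ 2 = a' / a := hs
  rw [hs']
  field_simp

theorem sqw_real : S_SQW ℝ := sqw_gen ℝ two_ne_zero

theorem sqw_padic (p : ℕ) [Fact p.Prime] : S_SQW ℚ_[p] := sqw_gen ℚ_[p] two_ne_zero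

end Pool.Agent.N126.PW
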